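import Mathlib

set_option autoImplicit false
set_option linter.unusedSimpArgs false

namespace Pool.Agent.Results.MP_0edd48_al.NontrivialIntersection

open FreeGroup (of)

/-- The natural homomorphism from `Aut F(n)` to `Aut (F(n)/F(n)')`. -/
def natMap (n : ℕ) :
    MulAut (FreeGroup (Fin n)) →* MulAut (Abelianization (FreeGroup (Fin n))) where
  toFun φ := MulEquiv.abelianizationCongr φ
  map_one' := abelianizationCongr_refl
  map_mul' φ ψ := (abelianizationCongr_trans ψ φ).symm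

/-- `IA(F(n))`, the kernel of the natural homomorphism. -/
def IA (n : ℕ) : Subgroup (MulAut (FreeGroup (Fin n))) := (natMap n).ker

/-- `f` is the automorphism `K_{ij}`: it sends `x_i` to `x_j x_i x_j⁻¹` and fixes every other
free generator. -/
def IsKij {n : ℕ} (f : MulAut (FreeGroup (Fin n))) (i j : Fin n) : Prop :=
  f (of i) = of j * of i * (of j)⁻¹ ∧ ∀ m, m ≠ i → f (of m) = of m

/-- `f` is the automorphism `K_{ijk}`: it sends `x_i` to `x_i [x_j, x_k]` and fixes every other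
free generator. -/
def IsKijk {n : ℕ} (f : MulAut (FreeGroup (Fin n))) (i j k : Fin n) : Prop :=
  f (of i) = of i * (of j * of k * (of j)⁻¹ * (of k)⁻¹) ∧ ∀ m, m ≠ i → f (of m) = of m

/-- `C(n)`, the subgroup of `IA(F(n))` generated by all `K_{ij}`, `i ≠ j`. -/
def C (n : ℕ) : Subgroup (IA n) :=
  Subgroup.closure {f | ∃ i j : Fin n, i ≠ j ∧ IsKij (f : MulAut (FreeGroup (Fin n))) i j}

/-- `T(n)`, the subgroup of `IA(F(n))` generated by all `K_{ijk}`, `i ≠ j < k ≠ i`. -/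
def T (n : ℕ) : Subgroup (IA n) :=
  Subgroup.closure {f | ∃ i j k : Fin n, i ≠ j ∧ j < k ∧ k ≠ i ∧
    IsKijk (f : MulAut (FreeGroup (Fin n))) i j k}

/-- The normal closure of `C(n)` in `IA(F(n))`. -/
def Cbar (n : ℕ) : Subgroup (IA n) := Subgroup.normalClosure (C n : Set (IA n))

section aux

variable {n : ℕ}

/-- The endomorphism `x_i ↦ u x_i v`. -/
def E (i : Fin n) (u v : FreeGroup (Fin n)) : FreeGroup (Fin n) →* FreeGroup (Fin n) :=
  FreeGroup.lift (Function.update FreeGroup.of i (u * of i * v))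

theorem E_same (i : Fin n) (u v : FreeGroup (Fin n)) : E i u v (of i) = u * of i * v := by
  simp [E]

theorem E_ne (i : Fin n) (u v : FreeGroup (Fin n)) {m : Fin n} (h : m ≠ i) :
    E i u v (of m) = of m := by
  simp [E, Function.update_of_ne h]

theorem E_comp (i : Fin n) (u v : FreeGroup (Fin n)) (h1 : E i u v u = u) (h2 : E i u v v = v) :
    (E i u v).comp (E i u⁻¹ v⁻¹) = MonoidHom.id _ := by
  apply FreeGroup.ext_hom
  intro m
  by_cases hm : m = i
  · subst hm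
    simp only [MonoidHom.comp_apply, E_same, map_mul, map_inv, h1, h2, MonoidHom.id_apply]
    group
  · simp [E_ne _ _ _ hm]

/-- The automorphism `x_i ↦ u x_i v` when `u`, `v` are fixed by it and by its inverse. -/
def mkE (i : Fin n) (u v : FreeGroup (Fin n)) (h1 : E i u v u = u) (h2 : E i u v v = v)
    (h3 : E i u⁻¹ v⁻¹ u = u) (h4 : E i u⁻¹ v⁻¹ v = v) : MulAut (FreeGroup (Fin n)) :=
  MonoidHom.toMulEquiv (E i u v) (E i u⁻¹ v⁻¹)
    (by
      have := E_comp i u⁻¹ v⁻¹ (by rw [map_inv, h3]) (by rw [map_inv, h4])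
      simpa using this)
    (E_comp i u v h1 h2)

theorem mkE_apply (i : Fin n) (u v : FreeGroup (Fin n)) (h1 h2 h3 h4) (w : FreeGroup (Fin n)) :
    mkE i u v h1 h2 h3 h4 w = E i u v w := rfl

theorem mkE_inv_apply (i : Fin n) (u v : FreeGroup (Fin n)) (h1 h2 h3 h4)
    (w : FreeGroup (Fin n)) :
    (mkE i u v h1 h2 h3 h4)⁻¹ w = E i u⁻¹ v⁻¹ w := rfl

theorem mem_IA_iff (f : MulAut (FreeGroup (Fin n))) :
    f ∈ IA n ↔ ∀ m, Abelianization.of (f (of m)) = Abelianization.of (of m) := by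
  constructor
  · intro h m
    have h1 : natMap n f = 1 := h
    have h2 := congrArg (fun g : MulAut _ => g (Abelianization.of (of m))) h1
    simpa [natMap] using h2
  · intro h
    show natMap n f = 1
    apply MulEquiv.ext
    intro x
    obtain ⟨w, rfl⟩ := QuotientGroup.mk_surjective x
    have h3 : (Abelianization.of.comp f.toMonoidHom : FreeGroup (Fin n) →* _)
        = Abelianization.of := by
      apply FreeGroup.ext_hom
      intro m
      exact h m
    exact DFunLike.congr_fun h3 w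

/-- `K_{ij}` as an element of `Aut F(n)`. -/
def K (i j : Fin n) (h : j ≠ i) : MulAut (FreeGroup (Fin n)) :=
  mkE i (of j) (of j)⁻¹ (E_ne _ _ _ h) (by rw [map_inv, E_ne _ _ _ h]) (E_ne _ _ _ h)
    (by rw [map_inv, E_ne _ _ _ h])

/-- `K_{ijk}` as an element of `Aut F(n)`. -/
def M (i j k : Fin n) (hj : j ≠ i) (hk : k ≠ i) : MulAut (FreeGroup (Fin n)) :=
  mkE i 1 (of j * of k * (of j)⁻¹ * (of k)⁻¹) (map_one _)
    (by simp only [map_mul, map_inv, E_ne _ _ _ hj, E_ne _ _ _ hk]) (map_one _)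
    (by simp only [map_mul, map_inv, E_ne _ _ _ hj, E_ne _ _ _ hk])

/-- The automorphism `x_i ↦ x_i x_j`. -/
def Φ (i j : Fin n) (h : j ≠ i) : MulAut (FreeGroup (Fin n)) :=
  mkE i 1 (of j) (map_one _) (E_ne _ _ _ h) (map_one _) (E_ne _ _ _ h)

theorem K_same (i j : Fin n) (h : j ≠ i) : K i j h (of i) = of j * of i * (of j)⁻¹ := E_same _ _ _

theorem K_ne (i j : Fin n) (h : j ≠ i) {m : Fin n} (hm : m ≠ i) : K i j h (of m) = of m :=
  E_ne _ _ _ hm

theorem Ki_same (i j : Fin n) (h : j ≠ i) : (K i j h)⁻¹ (of i) = (of j)⁻¹ * of i * of j := by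
  rw [K, mkE_inv_apply, E_same, inv_inv]

theorem Ki_ne (i j : Fin n) (h : j ≠ i) {m : Fin n} (hm : m ≠ i) : (K i j h)⁻¹ (of m) = of m :=
  E_ne _ _ _ hm

theorem M_same (i j k : Fin n) (hj : j ≠ i) (hk : k ≠ i) :
    M i j k hj hk (of i) = of i * (of j * of k * (of j)⁻¹ * (of k)⁻¹) := by
  rw [M, mkE_apply, E_same, one_mul]

theorem M_ne (i j k : Fin n) (hj : j ≠ i) (hk : k ≠ i) {m : Fin n} (hm : m ≠ i) :
    M i j k hj hk (of m) = of m := E_ne _ _ _ hm

theorem Mi_same (i j k : Fin n) (hj : j ≠ i) (hk : k ≠ i) :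
    (M i j k hj hk)⁻¹ (of i) = of i * (of k * of j * (of k)⁻¹ * (of j)⁻¹) := by
  rw [M, mkE_inv_apply, E_same]
  group

theorem Mi_ne (i j k : Fin n) (hj : j ≠ i) (hk : k ≠ i) {m : Fin n} (hm : m ≠ i) :
    (M i j k hj hk)⁻¹ (of m) = of m := E_ne _ _ _ hm

theorem Φ_same (i j : Fin n) (h : j ≠ i) : Φ i j h (of i) = of i * of j := by
  rw [Φ, mkE_apply, E_same, one_mul]

theorem Φ_ne (i j : Fin n) (h : j ≠ i) {m : Fin n} (hm : m ≠ i) : Φ i j h (of m) = of m :=
  E_ne _ _ _ hm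

theorem ext_of {f g : MulAut (FreeGroup (Fin n))} (h : ∀ m, f (of m) = g (of m)) : f = g := by
  apply MulEquiv.ext
  intro w
  have h3 : f.toMonoidHom = g.toMonoidHom := FreeGroup.ext_hom _ _ h
  exact DFunLike.congr_fun h3 w

theorem K_mem (i j : Fin n) (h : j ≠ i) : K i j h ∈ IA n := by
  rw [mem_IA_iff]
  intro m
  by_cases hm : m = i
  · subst hm
    rw [K_same, map_mul, map_mul, map_inv, mul_comm (Abelianization.of _), mul_inv_cancel_right]
  · rw [K_ne _ _ _ hm]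

theorem M_mem (i j k : Fin n) (hj : j ≠ i) (hk : k ≠ i) : M i j k hj hk ∈ IA n := by
  rw [mem_IA_iff]
  intro m
  by_cases hm : m = i
  · subst hm
    rw [M_same]
    simp only [map_mul, map_inv]
    rw [mul_comm (Abelianization.of (of j)) (Abelianization.of (of k))]
    group
  · rw [M_ne _ _ _ _ _ hm]

section rel

variable (p q r : Fin n) (hpq : q ≠ p) (hpr : r ≠ p) (hqr : r ≠ q)

theorem R1 : Φ q p hpq.symm * M p q r hpq hpr =
    (K q p hpq.symm)⁻¹ * (K p q hpq)⁻¹ * (K p r hpr)⁻¹ * (M q p r hpq.symm hqr)⁻¹ * K p q hpq *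
      M p q r hpq hpr * K q r hqr * K q p hpq.symm * Φ q p hpq.symm := by
  apply ext_of
  intro m
  simp only [MulAut.mul_apply]
  by_cases h1 : m = p
  · subst h1
    simp only [K_same, K_ne, Ki_same, Ki_ne, M_same, M_ne, Mi_same, Mi_ne, Φ_same, Φ_ne, map_mul,
      map_inv, hpq, hpr, hqr, hpq.symm, hpr.symm, hqr.symm, ne_eq, not_false_eq_true, mul_inv_rev, inv_inv]
    group
  by_cases h2 : m = q
  · subst h2
    simp only [K_same, K_ne, Ki_same, Ki_ne, M_same, M_ne, Mi_same, Mi_ne, Φ_same, Φ_ne, map_mul,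
      map_inv, hpq, hpr, hqr, hpq.symm, hpr.symm, hqr.symm, ne_eq, not_false_eq_true, mul_inv_rev, inv_inv]
    group
  simp only [K_ne _ _ _ h1, K_ne _ _ _ h2, Ki_ne _ _ _ h1, Ki_ne _ _ _ h2, M_ne _ _ _ _ _ h1,
    M_ne _ _ _ _ _ h2, Mi_ne _ _ _ _ _ h1, Mi_ne _ _ _ _ _ h2, Φ_ne _ _ _ h2]

theorem R2 : Φ q p hpq.symm * K p r hpr = M q p r hpq.symm hqr * K p r hpr * Φ q p hpq.symm := by
  apply ext_of
  intro m
  simp only [MulAut.mul_apply]
  by_cases h1 : m = p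
  · subst h1
    simp only [K_same, K_ne, Ki_same, Ki_ne, M_same, M_ne, Mi_same, Mi_ne, Φ_same, Φ_ne, map_mul,
      map_inv, hpq, hpr, hqr, hpq.symm, hpr.symm, hqr.symm, ne_eq, not_false_eq_true]
  by_cases h2 : m = q
  · subst h2
    simp only [K_same, K_ne, Ki_same, Ki_ne, M_same, M_ne, Mi_same, Mi_ne, Φ_same, Φ_ne, map_mul,
      map_inv, hpq, hpr, hqr, hpq.symm, hpr.symm, hqr.symm, ne_eq, not_false_eq_true]
    group
  simp only [K_ne _ _ _ h1, M_ne _ _ _ _ _ h2, Φ_ne _ _ _ h2]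

theorem R3 : Φ q p hpq.symm * K p q hpq = K p q hpq * K q p hpq.symm * Φ q p hpq.symm := by
  apply ext_of
  intro m
  simp only [MulAut.mul_apply]
  by_cases h1 : m = p
  · subst h1
    simp only [K_same, K_ne, Ki_same, Ki_ne, M_same, M_ne, Mi_same, Mi_ne, Φ_same, Φ_ne, map_mul,
      map_inv, hpq, hpq.symm, ne_eq, not_false_eq_true]
    group
  by_cases h2 : m = q
  · subst h2
    simp only [K_same, K_ne, Ki_same, Ki_ne, M_same, M_ne, Mi_same, Mi_ne, Φ_same, Φ_ne, map_mul,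
      map_inv, hpq, hpq.symm, ne_eq, not_false_eq_true]
    group
  simp only [K_ne _ _ _ h1, K_ne _ _ _ h2, Φ_ne _ _ _ h2]

/-- Left and right multiplications of `x_p` commute. -/
theorem R4 : ((K p r hpr)⁻¹ * (K p q hpq)⁻¹ * K p r hpr * K p q hpq * M p q r hpq hpr) *
      (K p r hpr * M p q r hpq hpr * (K p r hpr)⁻¹) =
    (K p r hpr * M p q r hpq hpr * (K p r hpr)⁻¹) *
      ((K p r hpr)⁻¹ * (K p q hpq)⁻¹ * K p r hpr * K p q hpq * M p q r hpq hpr) := by
  apply ext_of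
  intro m
  simp only [MulAut.mul_apply]
  by_cases h1 : m = p
  · subst h1
    simp only [K_same, K_ne, Ki_same, Ki_ne, M_same, M_ne, Mi_same, Mi_ne, Φ_same, Φ_ne, map_mul,
      map_inv, hpq, hpr, hpq.symm, hpr.symm, ne_eq, not_false_eq_true]
    group
  simp only [K_ne _ _ _ h1, Ki_ne _ _ _ h1, M_ne _ _ _ _ _ h1]

/-- The images under conjugation by `Φ` commute as well. -/
theorem R5 (φ a c12 c13 a' c12' c13' : MulAut (FreeGroup (Fin n)))
    (h1 : φ * a = a' * φ) (h2 : φ * c12 = c12' * φ) (h3 : φ * c13 = c13' * φ)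
    (h4 : (c13⁻¹ * c12⁻¹ * c13 * c12 * a) * (c13 * a * c13⁻¹) =
      (c13 * a * c13⁻¹) * (c13⁻¹ * c12⁻¹ * c13 * c12 * a)) :
    (c13'⁻¹ * c12'⁻¹ * c13' * c12' * a') * (c13' * a' * c13'⁻¹) =
      (c13' * a' * c13'⁻¹) * (c13'⁻¹ * c12'⁻¹ * c13' * c12' * a') := by
  have e1 : a' = φ * a * φ⁻¹ := by rw [h1]; group
  have e2 : c12' = φ * c12 * φ⁻¹ := by rw [h2]; group
  have e3 : c13' = φ * c13 * φ⁻¹ := by rw [h3]; group
  have h5 := congrArg (fun x => φ * x * φ⁻¹) h4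
  rw [e1, e2, e3]
  calc _ = φ * (c13⁻¹ * c12⁻¹ * c13 * c12 * a * (c13 * a * c13⁻¹)) * φ⁻¹ := by group
    _ = _ := h5
    _ = _ := by group

/-- The generators as elements of `IA(F(n))`. -/
def KI (i j : Fin n) (h : j ≠ i) : IA n := ⟨K i j h, K_mem i j h⟩

/-- The generators as elements of `IA(F(n))`. -/
def MI (i j k : Fin n) (hj : j ≠ i) (hk : k ≠ i) : IA n := ⟨M i j k hj hk, M_mem i j k hj hk⟩

theorem KI_mem (i j : Fin n) (h : j ≠ i) : KI i j h ∈ Cbar n := by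
  apply Subgroup.subset_normalClosure
  apply Subgroup.subset_closure
  exact ⟨i, j, h.symm, K_same i j h, fun m hm => K_ne i j h hm⟩

theorem MI_mem (i j k : Fin n) (hj : j ≠ i) (hk : k ≠ i) (hjk : j < k) :
    MI i j k hj hk ∈ T n := by
  apply Subgroup.subset_closure
  exact ⟨i, j, k, hj.symm, hjk, hk, M_same i j k hj hk, fun m hm => M_ne i j k hj hk hm⟩

theorem commutes_IA :
    let a := MI p q r hpq hpr
    let b := MI q p r hpq.symm hqr
    let c12 := KI p q hpq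
    let c21 := KI q p hpq.symm
    let c13 := KI p r hpr
    let c23 := KI q r hqr
    let a' := c21⁻¹ * c12⁻¹ * c13⁻¹ * b⁻¹ * c12 * a * c23 * c21
    let c12' := c12 * c21
    let c13' := b * c13
    (c13'⁻¹ * c12'⁻¹ * c13' * c12' * a') * (c13' * a' * c13'⁻¹) =
      (c13' * a' * c13'⁻¹) * (c13'⁻¹ * c12'⁻¹ * c13' * c12' * a') := by
  intro a b c12 c21 c13 c23 a' c12' c13'
  apply Subtype.ext
  exact R5 (Φ q p hpq.symm) (M p q r hpq hpr) (K p q hpq) (K p r hpr) _ _ _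
    (R1 p q r hpq hpr hqr) (R3 p q hpq) (R2 p q r hpq hpr hqr) (R4 p q r hpq hpr)

/-- The commutator of `b⁻¹ a` and `a b⁻¹`. -/
def W : IA n :=
  let a := MI p q r hpq hpr
  let b := MI q p r hpq.symm hqr
  (b⁻¹ * a) * (a * b⁻¹) * ((a * b⁻¹) * (b⁻¹ * a))⁻¹

theorem W_mem_Cbar : W p q r hpq hpr hqr ∈ Cbar n := by
  have : (Cbar n).Normal := Subgroup.normalClosure_normal
  have hK : ∀ (i j : Fin n) (h : j ≠ i), QuotientGroup.mk' (Cbar n) (KI i j h) = 1 := by
    intro i j h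
    rw [← MonoidHom.mem_ker, QuotientGroup.ker_mk']
    exact KI_mem i j h
  have h := congrArg (QuotientGroup.mk' (Cbar n)) (commutes_IA p q r hpq hpr hqr)
  simp only [map_mul, map_inv, hK, mul_one, one_mul, inv_one] at h
  rw [← QuotientGroup.ker_mk' (Cbar n), MonoidHom.mem_ker, W]
  simp only [map_mul, map_inv]
  rw [mul_inv_eq_one]
  generalize QuotientGroup.mk' (Cbar n) (MI p q r hpq hpr) = a at h ⊢
  generalize QuotientGroup.mk' (Cbar n) (MI q p r hpq.symm hqr) = b at h ⊢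
  calc b⁻¹ * a * (a * b⁻¹) = b⁻¹ * b * (b⁻¹ * a) * (b * (b⁻¹ * a) * b⁻¹) := by group
    _ = b * (b⁻¹ * a) * b⁻¹ * (b⁻¹ * b * (b⁻¹ * a)) := h
    _ = _ := by group

theorem W_mem_T (h1 : p < q) (h2 : q < r) : W p q r hpq hpr hqr ∈ T n := by
  have ha : MI p q r hpq hpr ∈ T n := MI_mem _ _ _ _ _ h2
  have hb : MI q p r hpq.symm hqr ∈ T n := MI_mem _ _ _ _ _ (h1.trans h2)
  rw [W]
  exact mul_mem (mul_mem (mul_mem (inv_mem hb) ha) (mul_mem ha (inv_mem hb)))
    (inv_mem (mul_mem (mul_mem ha (inv_mem hb)) (mul_mem (inv_mem hb) ha)))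

/-- A test homomorphism to the symmetric group on three letters. -/
def test (g1 g2 g3 : Equiv.Perm (Fin 3)) : FreeGroup (Fin n) →* Equiv.Perm (Fin 3) :=
  FreeGroup.lift (fun m => if m = p then g1 else if m = q then g2 else if m = r then g3 else 1)

theorem W_ne_one : W p q r hpq hpr hqr ≠ 1 := by
  intro hW
  rw [W, mul_inv_eq_one] at hW
  have h1 : ((M q p r hpq.symm hqr)⁻¹ * M p q r hpq hpr) *
      (M p q r hpq hpr * (M q p r hpq.symm hqr)⁻¹) =
      (M p q r hpq hpr * (M q p r hpq.symm hqr)⁻¹) *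
      ((M q p r hpq.symm hqr)⁻¹ * M p q r hpq hpr) := congrArg Subtype.val hW
  have h2 := congrArg (fun f : MulAut (FreeGroup (Fin n)) =>
    test p q r 1 (Equiv.swap 0 1 * Equiv.swap 1 2) (Equiv.swap 0 1) (f (of p))) h1
  simp only [MulAut.mul_apply] at h2
  simp only [M_same, M_ne, Mi_same, Mi_ne, map_mul, map_inv, hpq, hpr, hqr, hpq.symm, hpr.symm,
    hqr.symm, ne_eq, not_false_eq_true, mul_inv_rev, inv_inv, test, FreeGroup.lift_apply_of,
    if_true, if_false] at h2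
  revert h2
  decide +kernel

end rel

end aux

/-- For every `n ≥ 3` the subgroup `C̄(n) ∩ T(n)` of `IA(F(n))` is not trivial. -/
theorem result : ∀ n : ℕ, 3 ≤ n → Cbar n ⊓ T n ≠ ⊥ := by
  intro n hn h
  have h1 : (⟨1, by omega⟩ : Fin n) ≠ ⟨0, by omega⟩ := by simp
  have h2 : (⟨2, by omega⟩ : Fin n) ≠ ⟨0, by omega⟩ := by simp
  have h3 : (⟨2, by omega⟩ : Fin n) ≠ ⟨1, by omega⟩ := by simp
  have hmem : W ⟨0, by omega⟩ ⟨1, by omega⟩ ⟨2, by omega⟩ h1 h2 h3 ∈ Cbar n ⊓ T n :=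
    ⟨W_mem_Cbar _ _ _ _ _ _, W_mem_T _ _ _ _ _ _ (by simp) (by simp)⟩
  rw [h, Subgroup.mem_bot] at hmem
  exact W_ne_one _ _ _ _ _ _ hmem

end Pool.Agent.Results.MP_0edd48_al.NontrivialIntersection
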